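import Pool.Agent.R831.Pmd

/-!
# Hypergraph LSS ideals are prime for `d ≥ pmd(H) + 1`
-/

namespace Pool.Agent.Results.MP_c79496_ag.PrimeAbovePmd

open R831.Hyper

/-- **Primeness above the pmd bound.** For every field `K`, every hypergraph on `{0, …, n-1}`
whose edge set `E` is a clutter (of nonempty sets) and every `d ≥ pmd(E) + 1`, the ideal
`L_H(d) = (∑_{l<d} ∏_{i ∈ A} y_{i,l} : A ∈ E)` is prime. Here `pmd E` is the least length of a
positive matching decomposition of `E` (one exists, by the last clause). -/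
theorem result (K : Type*) [Field K] (n : ℕ) (E : Finset (Finset (Fin n))) (hE : IsClutter E) :
    (∀ d, pmd E + 1 ≤ d → (lss K n d E).IsPrime) ∧ HasPMD (pmd E) E := by
  refine ⟨?_, hasPMD_pmd hE⟩
  intro d hd
  obtain ⟨p, rfl⟩ : ∃ p, d = p + 1 := ⟨d - 1, by omega⟩
  exact lss_prime p hE (hasPMD_of_le hE (by omega))

end Pool.Agent.Results.MP_c79496_ag.PrimeAbovePmd
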